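import Pool.Agent.Helper69.MWF.Stmts
import Pool.Agent.Helper69.MWF.BasicT
import Pool.Agent.Helper56.Category
import Pool.Agent.Helper27.MWF.Fusion

/-!
# MP_80e84b_lc (S14965): module KU (Kuratowski-Ulam and uniformization in a cylinder)
-/

set_option autoImplicit false

open Topology Set Filter

namespace Pool.Agent.Helper33.MWF

open Pool.Agent.Helper69.MWF Pool.Agent.Helper95.MW

/-- countably many Borel sets which cover a residual set: one of them is residual in an open set -/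
theorem uni_gen {α : Type*} [TopologicalSpace α] [MeasurableSpace α] [BorelSpace α] [BaireSpace α]
    {ι : Type*} [Countable ι] (P : ι → Set α) (hP : ∀ i, MeasurableSet (P i))
    (h : ∀ᶠ x in residual α, ∃ i, x ∈ P i) {O : Set α} (hO : IsOpen O) (hne : O.Nonempty) :
    ∃ i, ∃ U : Set α, IsOpen U ∧ U.Nonempty ∧ U ⊆ O ∧ ∀ᶠ x in residual α, x ∈ U → x ∈ P i := by
  have h1 : ∀ i, ∃ U : Set α, IsOpen U ∧ ∀ᶠ x in residual α, (x ∈ P i ↔ x ∈ U) := by
    intro i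
    obtain ⟨U, hU, hPU⟩ := (hP i).residualEq_isOpen
    exact ⟨U, hU, Filter.eventuallyEq_set.1 hPU⟩
  choose U hU hPU using h1
  have h2 : ∀ᶠ x in residual α, ∀ i, (x ∈ P i ↔ x ∈ U i) := eventually_countable_forall.2 hPU
  obtain ⟨x, hxO, hx1, hx2⟩ := (dense_of_mem_residual (h.and h2)).inter_open_nonempty O hO hne
  obtain ⟨i, hi⟩ := hx1
  refine ⟨i, U i ∩ O, (hU i).inter hO, ⟨x, (hx2 i).1 hi, hxO⟩, inter_subset_right, ?_⟩
  filter_upwards [h2] with y hy hyU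
  exact (hy i).2 hyU.1

/-- a Borel set whose preimage is residual is residual -/
theorem res_of_preimage {α β : Type*} [TopologicalSpace α] [BaireSpace α] [TopologicalSpace β]
    [MeasurableSpace β] [BorelSpace β] {φ : α → β} (hc : Continuous φ)
    (hs : Function.Surjective φ) (ht : Tendsto φ (residual α) (residual β)) {B : Set β}
    (hB : MeasurableSet B) (h : φ ⁻¹' B ∈ residual α) : B ∈ residual β := by
  obtain ⟨U, hU, hBU⟩ := hB.residualEq_isOpen
  have h1 : ∀ᶠ x in residual β, (x ∈ B ↔ x ∈ U) := Filter.eventuallyEq_set.1 hBU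
  have h2 : ∀ᶠ p in residual α, φ p ∈ U := by
    filter_upwards [h, ht.eventually h1] with p hp hp2
    exact hp2.1 hp
  have hd : Dense U := by
    rw [dense_iff_inter_open]
    rintro V hV ⟨y, hy⟩
    obtain ⟨p, hp⟩ := hs y
    obtain ⟨q, hq1, hq2⟩ := (dense_of_mem_residual h2).inter_open_nonempty (φ ⁻¹' V)
      (hV.preimage hc) ⟨p, by rw [mem_preimage, hp]; exact hy⟩
    exact ⟨φ q, hq1, hq2⟩
  have h3 : U ∈ residual β := residual_of_dense_open hU hd
  filter_upwards [h1, h3] with x hx hx2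
  exact hx.2 hx2

theorem st_KU1 : ST_KU1 := fun _ hP => Pool.Agent.Helper56.Cat.ku hP

theorem st_KU2 : ST_KU2 := by
  intro P hP h
  obtain ⟨U, hU, hPU⟩ := hP.residualEq_isOpen
  have h1 : ∀ᶠ p in residual ((ℕ → ℕ) × (ℕ → ℕ)), (p ∈ P ↔ p ∈ U) :=
    Filter.eventuallyEq_set.1 hPU
  have h2 := st_KU1 _ h1
  have h3 : ∀ᶠ x in residual (ℕ → ℕ), ∀ᶠ y in residual (ℕ → ℕ), (x, y) ∈ U := by
    filter_upwards [h, h2] with x hx hx2
    filter_upwards [hx, hx2] with y hy hy2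
    exact hy2.1 hy
  have hd : Dense U := by
    refine dense_of_box fun x y n => ?_
    obtain ⟨x', hx1, hx2⟩ := exists_of_residual' h3 x n
    obtain ⟨y', hy1, hy2⟩ := exists_of_residual' hx1 y n
    exact ⟨(x', y'), hy1, hx2, hy2⟩
  have h4 : U ∈ residual ((ℕ → ℕ) × (ℕ → ℕ)) := residual_of_dense_open hU hd
  filter_upwards [h1, h4] with p hp hp2
  exact hp.2 hp2

theorem st_L1 : ST_L1 := by
  intro S T f n hS hST
  have h1 : ∃ i, ¬ IsMeagre (T i ∩ Cy f n) := by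
    by_contra hc
    push Not at hc
    refine hS ((isMeagre_iUnion hc).mono ?_)
    rintro x ⟨hx, hx2⟩
    obtain ⟨i, hi⟩ := mem_iUnion.1 (hST hx)
    exact mem_iUnion.2 ⟨i, hi, hx2⟩
  obtain ⟨i, hi⟩ := h1
  obtain ⟨O, h2, ⟨f', hf'⟩, h4, h5⟩ := MWFusion.exists_enOn_of_not (isOpen_Cy f n) hi
  obtain ⟨k, hk⟩ := exists_Cy_subset h2 hf'
  refine ⟨i, f', max n k, le_max_left _ _, h4 hf', ?_⟩
  intro g m hm hg
  refine h5 _ (isOpen_Cy g m) ⟨g, mem_Cy_self g m⟩ ?_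
  intro x hx
  refine hk fun j hj => ?_
  have h6 : j < max n k := lt_of_lt_of_le hj (le_max_right _ _)
  rw [hx j (lt_of_lt_of_le h6 hm), hg j h6]

theorem st_L2 : ST_L2 := by
  intro P f n hP hm
  obtain ⟨U, hU, hPU⟩ := hP.residualEq_isOpen
  have h1 : ∀ᶠ x in residual (ℕ → ℕ), (x ∈ P ↔ x ∈ U) := Filter.eventuallyEq_set.1 hPU
  have h2 : (U ∩ Cy f n).Nonempty := by
    by_contra hne
    rw [not_nonempty_iff_eq_empty] at hne
    apply hm
    change (P ∩ Cy f n)ᶜ ∈ residual (ℕ → ℕ)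
    filter_upwards [h1] with x hx hx2
    have : x ∈ U ∩ Cy f n := ⟨hx.1 hx2.1, hx2.2⟩
    rw [hne] at this
    exact this
  obtain ⟨f', hf1, hf2⟩ := h2
  obtain ⟨k, hk⟩ := exists_Cy_subset hU hf1
  refine ⟨f', max n k, le_max_left _ _, hf2, ?_⟩
  filter_upwards [h1] with x hx hx2
  exact hx.2 (hk (Cy_mono (le_max_right _ _) hx2))

theorem st_UNI1 : ST_UNI1 := by
  intro ι _ P hP h f n
  obtain ⟨i, U, h1, ⟨f', hf'⟩, h3, h4⟩ := uni_gen P hP h (isOpen_Cy f n) ⟨f, mem_Cy_self f n⟩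
  obtain ⟨k, hk⟩ := exists_Cy_subset h1 hf'
  refine ⟨i, f', max n k, le_max_left _ _, h3 hf', ?_⟩
  filter_upwards [h4] with x hx hx2
  exact hx (hk (Cy_mono (le_max_right _ _) hx2))

theorem st_UNI2 : ST_UNI2 := by
  intro ι _ P hP h f g n
  obtain ⟨i, U, h1, ⟨⟨f', g'⟩, hf'⟩, h3, h4⟩ := uni_gen P hP h (isOpen_box f g n n)
    ⟨(f, g), mem_Cy_self f n, mem_Cy_self g n⟩
  obtain ⟨k, hk⟩ := exists_box_subset h1 hf'
  refine ⟨i, f', g', max n k, le_max_left _ _, (h3 hf').1, (h3 hf').2, ?_⟩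
  filter_upwards [h4] with p hp hp1 hp2
  exact hp (hk p (Cy_mono (le_max_right _ _) hp1) (Cy_mono (le_max_right _ _) hp2))

end Pool.Agent.Helper33.MWF
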