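import Pool.Agent.Helper95.MW.Main

/-!
# MP_80e84b_lc: the maps `α_s` and the density of their orbits (no automorphism, no category)
-/

set_option autoImplicit false

namespace MWF

open Pool.Agent.Helper95.MW

/-- entries are at most the code -/
theorem le_ec_of_mem {l : List ℕ} {a : ℕ} (h : a ∈ l) : a ≤ ec l := by
  unfold ec
  induction l with
  | nil => cases h
  | cons b l ih =>
    rw [Encodable.encode_list_cons]
    rcases List.mem_cons.1 h with h | h
    · subst h
      have := Nat.left_le_pair (Encodable.encode a) (Encodable.encode l)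
      have h2 : Encodable.encode a = a := rfl
      omega
    · have := Nat.right_le_pair (Encodable.encode b) (Encodable.encode l)
      have h3 := ih h
      omega

theorem le_ec_ini {f : ℕ → ℕ} {i s : ℕ} (h : i < s) : f i ≤ ec (ini f s) := by
  apply le_ec_of_mem
  unfold ini
  exact List.mem_map.2 ⟨i, List.mem_range.2 h, rfl⟩

theorem ec_inj {l l' : List ℕ} (h : ec l = ec l') : l = l' := Encodable.encode_injective h

theorem ec_dl (c : ℕ) : ec (dl c) = c := by
  unfold ec dl
  rw [Denumerable.decode_eq_ofNat]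
  exact Denumerable.encode_ofNat c

theorem ec_ini_inj {f g : ℕ → ℕ} {s t : ℕ} (h : ec (ini f s) = ec (ini g t)) :
    s = t ∧ ∀ i, i < s → f i = g i := by
  have h1 := ec_inj h
  have h2 : s = t := by
    have := congrArg List.length h1
    rwa [ini_length, ini_length] at this
  subst h2
  exact ⟨rfl, agree_of_ini_eq h1⟩

/-- the map `α_s` on the cylinder of `u | M` -/
def al (M : ℕ) (u s g : ℕ → ℕ) : ℕ → ℕ := fun n => if n < M then u n else s (ec (ini g (n + 1)))

theorem al_lt {M n : ℕ} (u s g : ℕ → ℕ) (h : n < M) : al M u s g n = u n := if_pos h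

theorem al_ge {M n : ℕ} (u s g : ℕ → ℕ) (h : M ≤ n) : al M u s g n = s (ec (ini g (n + 1))) :=
  if_neg (not_lt.2 h)

/-- exchange of `[0,k]` and `[k+1,2k+1]` -/
def bet (k j : ℕ) : ℕ := if j ≤ k then j + k + 1 else if j ≤ 2 * k + 1 then j - (k + 1) else j

theorem bet_bet (k j : ℕ) : bet k (bet k j) = j := by
  unfold bet
  split_ifs <;> omega

theorem bet_le {k j : ℕ} (h : j ≤ k) : k < bet k j := by
  unfold bet
  split_ifs
  omega

/-- the involution `H` -/
def HH (M : ℕ) (u s : ℕ → ℕ) : ℕ → ℕ := fun c =>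
  if (dl c).length = M + 1 ∧ (dl c).take M = ini u M then bet ((dl c).getD M 0) (s c) else s c

theorem HH_HH (M : ℕ) (u s : ℕ → ℕ) : HH M u (HH M u s) = s := by
  funext c
  unfold HH
  split_ifs with h
  · exact bet_bet _ _
  · rfl

theorem HH_congr {M : ℕ} {u s s' : ℕ → ℕ} {c : ℕ} (h : s c = s' c) : HH M u s c = HH M u s' c := by
  unfold HH
  rw [h]

theorem HH_congr_iff {M : ℕ} {u s s' : ℕ → ℕ} {c : ℕ} : HH M u s c = HH M u s' c ↔ s c = s' c := by
  constructor
  · intro h
    have := HH_congr (M := M) (u := u) h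
    rwa [HH_HH, HH_HH] at this
  · exact HH_congr

theorem HH_app {M : ℕ} {u s g : ℕ → ℕ} (hg : ∀ i, i < M → g i = u i) :
    HH M u s (ec (ini g (M + 1))) = bet (g M) (s (ec (ini g (M + 1)))) := by
  unfold HH
  have h1 : dl (ec (ini g (M + 1))) = ini g (M + 1) := dl_ec _
  have h2 : (ini g (M + 1)).take M = ini u M := by
    rw [ini_succ, List.take_append_of_le_length (by rw [ini_length])]
    rw [List.take_of_length_le (by rw [ini_length])]
    exact ini_eq_of_agree hg
  rw [h1, if_pos ⟨ini_length _ _, h2⟩]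
  have h3 : (ini g (M + 1)).getD M 0 = g M := by
    rw [List.getD_eq_getElem?_getD, ini_get? (Nat.lt_succ_self M)]
    rfl
  rw [h3]

/-- `H` changes nothing at the codes of shorter strings -/
theorem HH_short {M : ℕ} {u s g : ℕ → ℕ} {i : ℕ} (hi : i ≤ M) :
    HH M u s (ec (ini g i)) = s (ec (ini g i)) := by
  unfold HH
  rw [if_neg]
  rintro ⟨h1, -⟩
  rw [dl_ec, ini_length] at h1
  omega

/-- `H` changes nothing at the codes of strings which contain no entry of `u | M` -/
theorem HH_small {M : ℕ} {u s : ℕ → ℕ} {i c : ℕ} (hi : i < M) (hc : c < u i) :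
    HH M u s c = s c := by
  unfold HH
  rw [if_neg]
  rintro ⟨-, h2⟩
  have h3 : u i ∈ dl c := by
    have : u i ∈ (dl c).take M := by
      rw [h2]
      exact List.mem_map.2 ⟨i, List.mem_range.2 hi, rfl⟩
    exact List.mem_of_mem_take this
  have h4 := le_ec_of_mem h3
  rw [ec_dl] at h4
  omega

/-- the orbit -/
def orb (M : ℕ) (u s g : ℕ → ℕ) : List Bool → (ℕ → ℕ)
  | [] => g
  | b :: w => al M u (if b then HH M u s else s) (orb M u s g w)

theorem orb_lt {M : ℕ} {u s g : ℕ → ℕ} (hg : ∀ i, i < M → g i = u i) (w : List Bool) :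
    ∀ i, i < M → orb M u s g w i = u i := by
  cases w with
  | nil => exact hg
  | cons b w => exact fun i hi => al_lt _ _ _ hi

theorem orb_unbdd {M : ℕ} {u s g : ℕ → ℕ} (hg : ∀ i, i < M → g i = u i) (B : ℕ) :
    ∃ w, B ≤ orb M u s g w M := by
  by_contra hc
  push Not at hc
  -- a maximal value
  have hne : ∃ w : List Bool, True := ⟨[], trivial⟩
  have hmax : ∃ w0 : List Bool, ∀ w, orb M u s g w M ≤ orb M u s g w0 M := by
    by_contra h
    push Not at h
    have h2 : ∀ n : ℕ, ∃ w, n ≤ orb M u s g w M := by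
      intro n
      induction n with
      | zero => exact ⟨[], Nat.zero_le _⟩
      | succ n ih =>
        obtain ⟨w, hw⟩ := ih
        obtain ⟨w', hw'⟩ := h w
        exact ⟨w', by omega⟩
    obtain ⟨w, hw⟩ := h2 B
    exact absurd (hc w) (not_lt.2 hw)
  obtain ⟨w, hw⟩ := hmax
  have h1 := hw (false :: w)
  have h2 := hw (true :: w)
  have h3 : orb M u s g (false :: w) M = s (ec (ini (orb M u s g w) (M + 1))) := by
    change al M u (if false = true then HH M u s else s) (orb M u s g w) M = _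
    rw [al_ge _ _ _ le_rfl]
    rfl
  have h4 : orb M u s g (true :: w) M = HH M u s (ec (ini (orb M u s g w) (M + 1))) := by
    change al M u (if true = true then HH M u s else s) (orb M u s g w) M = _
    rw [al_ge _ _ _ le_rfl]
    rfl
  rw [HH_app (orb_lt hg w)] at h4
  rw [h3] at h1
  rw [h4] at h2
  exact absurd (bet_le h1) (not_lt.2 h2)

/-- density of the orbits: it is enough to change `s` at large codes -/
theorem orb_dense {M : ℕ} {u g : ℕ → ℕ} (s0 : ℕ → ℕ) (hg : ∀ i, i < M → g i = u i) (N1 : ℕ)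
    (v : ℕ → ℕ) : ∃ (s1 : ℕ → ℕ) (w : List Bool), (∀ c, c < N1 → s1 c = s0 c) ∧
      ∀ n, M ≤ n → orb M u s1 g w n = v n := by
  classical
  -- the first time the value at `M` is large
  have hex : ∃ n, ∃ w : List Bool, w.length = n ∧ N1 ≤ orb M u s0 g w M := by
    obtain ⟨w, hw⟩ := orb_unbdd (s := s0) hg N1
    exact ⟨_, w, rfl, hw⟩
  obtain ⟨w, hwl, hw⟩ := Nat.find_spec hex
  have hmin : ∀ w' : List Bool, w'.length < w.length → orb M u s0 g w' M < N1 := by
    intro w' hw'
    by_contra hc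
    exact Nat.find_min hex (m := w'.length) (by rw [← hwl]; exact hw') ⟨w', rfl, not_lt.1 hc⟩
  set g' := orb M u s0 g w with hg'
  let s1 : ℕ → ℕ := fun c => if ∃ n, M ≤ n ∧ c = ec (ini g' (n + 1)) then
    v ((dl c).length - 1) else s0 c
  have hs1 : ∀ n, M ≤ n → s1 (ec (ini g' (n + 1))) = v n := by
    intro n hn
    have : ∃ n', M ≤ n' ∧ ec (ini g' (n + 1)) = ec (ini g' (n' + 1)) := ⟨n, hn, rfl⟩
    change (if _ then _ else _) = _
    rw [if_pos this, dl_ec, ini_length, Nat.add_sub_cancel]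
  have hs0 : ∀ c, (¬ ∃ n, M ≤ n ∧ c = ec (ini g' (n + 1))) → s1 c = s0 c := by
    intro c hc
    exact if_neg hc
  refine ⟨s1, false :: w, ?_, ?_⟩
  · intro c hc
    refine hs0 c ?_
    rintro ⟨n, hn, rfl⟩
    have := le_ec_ini (f := g') (i := M) (s := n + 1) (by omega)
    omega
  · -- the path does not change
    have hpath : ∀ w' : List Bool, w'.length ≤ w.length → (∃ p, w = p ++ w') →
        orb M u s1 g w' = orb M u s0 g w' := by
      intro w'
      induction w' with
      | nil => intro _ _; rfl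
      | cons b w'' ih =>
        intro hl hp
        have hl2 : w''.length < w.length := by
          rw [List.length_cons] at hl
          omega
        have h1 := ih hl2.le (by
          obtain ⟨p, hp⟩ := hp
          exact ⟨p ++ [b], by rw [hp]; simp⟩)
        change al M u (if b then HH M u s1 else s1) (orb M u s1 g w'') =
          al M u (if b then HH M u s0 else s0) (orb M u s0 g w'')
        rw [h1]
        funext n
        rcases lt_or_ge n M with hn | hn
        · rw [al_lt _ _ _ hn, al_lt _ _ _ hn]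
        · rw [al_ge _ _ _ hn, al_ge _ _ _ hn]
          have h2 : s1 (ec (ini (orb M u s0 g w'') (n + 1))) =
              s0 (ec (ini (orb M u s0 g w'') (n + 1))) := by
            refine hs0 _ ?_
            rintro ⟨n', hn', h3⟩
            have h4 := (ec_ini_inj h3).2 M (by omega)
            have h5 := hmin w'' hl2
            rw [h4] at h5
            omega
          cases b
          · exact h2
          · exact HH_congr h2
    intro n hn
    change al M u (if false = true then HH M u s1 else s1) (orb M u s1 g w) n = v n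
    rw [al_ge _ _ _ hn, hpath w le_rfl ⟨[], rfl⟩]
    exact hs1 n hn

/-- pull-back of open sets -/
theorem al_pull {M : ℕ} {u g0 : ℕ → ℕ} (s0 : ℕ → ℕ) {N1 : ℕ} (hM : M ≤ N1) :
    ∃ N2, N1 ≤ N2 ∧ ∀ s2 z2 : ℕ → ℕ, (∀ c, c < N2 → s2 c = s0 c) →
      (∀ n, n < N1 → z2 n = al M u s0 g0 n) → ∀ N3, ∃ s1 g1 : ℕ → ℕ,
        (∀ c, c < N1 → s1 c = s0 c) ∧ (∀ n, n < N1 → g1 n = g0 n) ∧
        (∀ c, c < N3 → s1 c = s2 c) ∧ al M u s1 g1 = z2 := by
  classical
  refine ⟨N1 + (Finset.range N1).sup (fun n => ec (ini g0 (n + 1))) + 1, by omega, ?_⟩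
  intro s2 z2 hs hz N3
  set N2 := N1 + (Finset.range N1).sup (fun n => ec (ini g0 (n + 1))) + 1 with hN2
  have hN2' : ∀ n, n < N1 → ec (ini g0 (n + 1)) < N2 := by
    intro n hn
    have : ec (ini g0 (n + 1)) ≤ (Finset.range N1).sup (fun n => ec (ini g0 (n + 1))) :=
      Finset.le_sup (f := fun n => ec (ini g0 (n + 1))) (Finset.mem_range.2 hn)
    omega
  set K := max N2 N3 with hK
  let g1 : ℕ → ℕ := fun n => if n < N1 then g0 n else K
  have hg1 : ∀ n, n < N1 → g1 n = g0 n := fun n hn => if_pos hn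
  have hg1K : g1 N1 = K := if_neg (lt_irrefl _)
  let s1 : ℕ → ℕ := fun c => if ∃ n, N1 ≤ n ∧ c = ec (ini g1 (n + 1)) then
    z2 ((dl c).length - 1) else s2 c
  have hs1 : ∀ n, N1 ≤ n → s1 (ec (ini g1 (n + 1))) = z2 n := by
    intro n hn
    have : ∃ n', N1 ≤ n' ∧ ec (ini g1 (n + 1)) = ec (ini g1 (n' + 1)) := ⟨n, hn, rfl⟩
    change (if _ then _ else _) = _
    rw [if_pos this, dl_ec, ini_length, Nat.add_sub_cancel]
  have hs2 : ∀ c, (¬ ∃ n, N1 ≤ n ∧ c = ec (ini g1 (n + 1))) → s1 c = s2 c := fun c hc => if_neg hc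
  have hsK : ∀ c, c < K → s1 c = s2 c := by
    intro c hc
    refine hs2 c ?_
    rintro ⟨n, hn, rfl⟩
    have := le_ec_ini (f := g1) (i := N1) (s := n + 1) (by omega)
    rw [hg1K] at this
    omega
  refine ⟨s1, g1, ?_, hg1, ?_, ?_⟩
  · intro c hc
    rw [hsK c (by omega), hs c (by omega)]
  · intro c hc
    exact hsK c (by omega)
  · funext n
    rcases lt_or_ge n N1 with hn | hn
    · rw [hz n hn]
      rcases lt_or_ge n M with hn2 | hn2
      · rw [al_lt _ _ _ hn2, al_lt _ _ _ hn2]
      · rw [al_ge _ _ _ hn2, al_ge _ _ _ hn2]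
        have h1 : ini g1 (n + 1) = ini g0 (n + 1) :=
          ini_eq_of_agree fun i hi => hg1 i (by omega)
        rw [h1]
        have h2 := hN2' n hn
        rw [hsK _ (by omega), hs _ h2]
    · rw [al_ge _ _ _ (hM.trans hn), hs1 n hn]

/-- pull-back of open sets by `α_{Hs}` -/
theorem al_pull_H {M : ℕ} {u g0 : ℕ → ℕ} (s0 : ℕ → ℕ) {N1 : ℕ} (hM : M ≤ N1) :
    ∃ N2, N1 ≤ N2 ∧ ∀ s2 z2 : ℕ → ℕ, (∀ c, c < N2 → s2 c = s0 c) →
      (∀ n, n < N1 → z2 n = al M u (HH M u s0) g0 n) → ∀ N3, ∃ s1 g1 : ℕ → ℕ,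
        (∀ c, c < N1 → s1 c = s0 c) ∧ (∀ n, n < N1 → g1 n = g0 n) ∧
        (∀ c, c < N3 → s1 c = s2 c) ∧ al M u (HH M u s1) g1 = z2 := by
  obtain ⟨N2, h1, h2⟩ := al_pull (M := M) (u := u) (g0 := g0) (HH M u s0) hM
  refine ⟨N2, h1, fun s2 z2 hs hz N3 => ?_⟩
  obtain ⟨s1, g1, h3, h4, h5, h6⟩ := h2 (HH M u s2) z2 (fun c hc => HH_congr (hs c hc)) hz N3
  refine ⟨HH M u s1, g1, ?_, h4, ?_, ?_⟩
  · intro c hc
    have := HH_congr (M := M) (u := u) (h3 c hc)
    rwa [HH_HH] at this
  · intro c hc
    have := HH_congr (M := M) (u := u) (h5 c hc)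
    rwa [HH_HH] at this
  · rw [HH_HH]
    exact h6

/-- the conditions on `s` are consistent -/
theorem exists_s {N M : ℕ} {ss u x : ℕ → ℕ} (hN : u N = N)
    (hx : ∀ i, i ≤ N → i < M → x i = ss (ec (ini u (i + 1)))) :
    ∃ s : ℕ → ℕ, (∀ c, c < N → s c = ss c) ∧ ∀ i, i < M → s (ec (ini u (i + 1))) = x i := by
  classical
  let s : ℕ → ℕ := fun c => if ∃ i, N < i ∧ i < M ∧ c = ec (ini u (i + 1)) then
    x ((dl c).length - 1) else ss c
  refine ⟨s, ?_, ?_⟩
  · intro c hc
    refine if_neg ?_
    rintro ⟨i, h1, h2, rfl⟩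
    have := le_ec_ini (f := u) (i := N) (s := i + 1) (by omega)
    omega
  · intro i hi
    rcases lt_or_ge N i with h | h
    · have : ∃ i', N < i' ∧ i' < M ∧ ec (ini u (i + 1)) = ec (ini u (i' + 1)) := ⟨i, h, hi, rfl⟩
      change (if _ then _ else _) = _
      rw [if_pos this, dl_ec, ini_length, Nat.add_sub_cancel]
    · have h1 : s (ec (ini u (i + 1))) = ss (ec (ini u (i + 1))) := by
        refine if_neg ?_
        rintro ⟨i', h1, h2, h3⟩
        have := (ec_ini_inj h3).1
        omega
      rw [h1, hx i h hi]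

/-- `H` respects the conditions on `s` -/
theorem HH_cond {N M : ℕ} {ss u x s : ℕ → ℕ} (hN : u N = N) (hNM : N < M)
    (h1 : ∀ c, c < N → s c = ss c) (h2 : ∀ i, i < M → s (ec (ini u (i + 1))) = x i) :
    (∀ c, c < N → HH M u s c = ss c) ∧ ∀ i, i < M → HH M u s (ec (ini u (i + 1))) = x i := by
  constructor
  · intro c hc
    rw [HH_small hNM (by rw [hN]; exact hc), h1 c hc]
  · intro i hi
    rw [HH_short (by omega), h2 i hi]

/-- `H s` is computable from `s` -/
theorem HH_le (M : ℕ) (u s : ℕ → ℕ) : LE (HH M u s) s := by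
  rw [le_iff]
  have hF : Primrec fun v : ℕ => (if (dl v.unpair.1).length = M + 1 ∧
      (dl v.unpair.1).take M = ini u M then
        bet ((dl v.unpair.1).getD M 0) v.unpair.2 else v.unpair.2) := by
    have hd : Primrec fun v : ℕ => dl v.unpair.1 := primrec_dl.comp
      (Primrec.fst.comp Primrec.unpair)
    have hr : Primrec fun v : ℕ => v.unpair.2 := Primrec.snd.comp Primrec.unpair
    have htk : Primrec fun l : List ℕ => l.take M := by
      have : ∀ l : List ℕ, l.take M = (List.range M).filterMap (fun i => l[i]?) := by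
        intro l
        induction M generalizing l with
        | zero => simp
        | succ M ih =>
          rw [List.range_succ, List.filterMap_append, ← ih]
          rw [List.take_add_one]
          rfl
      refine Primrec.of_eq ?_ (fun l => (this l).symm)
      exact Primrec.listFilterMap (Primrec.const _)
        (Primrec.list_getElem?.comp Primrec.fst Primrec.snd)
    have hb : Primrec₂ bet := by
      unfold bet
      refine Primrec.ite ?_ ?_ ?_
      · exact Primrec.nat_le.comp Primrec.snd Primrec.fst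
      · exact Primrec.succ.comp (Primrec.nat_add.comp Primrec.snd Primrec.fst)
      · refine Primrec.ite ?_ ?_ ?_
        · exact Primrec.nat_le.comp Primrec.snd
            (Primrec.succ.comp (Primrec.nat_mul.comp (Primrec.const 2) Primrec.fst))
        · exact Primrec.nat_sub.comp Primrec.snd (Primrec.succ.comp Primrec.fst)
        · exact Primrec.snd
    refine Primrec.ite ?_ ?_ hr
    · refine PrimrecPred.and ?_ ?_
      · exact Primrec.eq.comp (Primrec.list_length.comp hd) (Primrec.const _)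
      · exact Primrec.eq.comp (htk.comp hd) (Primrec.const _)
    · exact hb.comp ((Primrec.list_getD 0).comp hd (Primrec.const M)) hr
  have h1 := rt_comp (rt_prim (w := s) (Primrec.nat_iff.1 hF))
    (rt_pair (rt_prim (w := s) (Primrec.nat_iff.1 Primrec.id)) (rt_oracle s))
  refine Eq.mp ?_ h1
  congr 1
  funext c
  simp only [Nat.unpair_pair, id]
  rfl

end MWF
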