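import Pool.Agent.Helper33.MWF.ORB
import Pool.Agent.Helper45.MWF.ACT
import Pool.Agent.Helper69.MWF.BasicT

/-!
# MP_80e84b_lc (S14965): module ORB2 (density of the orbits)
-/

set_option autoImplicit false

open Topology Set Filter

namespace Pool.Agent.Helper33.MWF

open Pool.Agent.Helper69.MWF Pool.Agent.Helper95.MW

theorem swp_eq (i j : ℕ) : swp i j = _root_.MWF.bet i j := rfl

theorem ini_append_iff {l : List ℕ} {M : ℕ} {p : List ℕ} (hp : p.length = M) :
    l = p ++ [l.getD M 0] ↔ l.length = M + 1 ∧ l.take M = p := by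
  constructor
  · intro h
    have h1 : l.length = M + 1 := by
      rw [h]
      simp [hp]
    refine ⟨h1, ?_⟩
    rw [h, ← hp]
    simp
  · rintro ⟨h1, h2⟩
    have h3 : l.drop M = [l.getD M 0] := by
      rw [List.getD_eq_getElem?_getD, List.getElem?_eq_getElem (by omega)]
      rw [List.drop_eq_getElem_cons (by omega)]
      rw [List.drop_eq_nil_of_le (by omega)]
      rfl
    conv_lhs => rw [← List.take_append_drop M l]
    rw [h2, h3]

theorem hm_eq (u : ℕ → ℕ) (M : ℕ) (s : ℕ → ℕ) : Hm u M s = _root_.MWF.HH M u s := by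
  funext k
  unfold Hm _root_.MWF.HH
  have h : (k = ec (ini u M ++ [(dl k).getD M 0])) ↔
      ((dl k).length = M + 1 ∧ (dl k).take M = ini u M) := by
    rw [← ini_append_iff (ini_length u M)]
    constructor
    · intro h
      have := congrArg dl h
      rwa [dl_ec] at this
    · intro h
      rw [← h, _root_.MWF.ec_dl]
  by_cases hk : k = ec (ini u M ++ [(dl k).getD M 0])
  · rw [if_pos hk, if_pos (h.1 hk)]
    rfl
  · rw [if_neg hk, if_neg (fun hc => hk (h.2 hc))]

theorem orb_eq (u : ℕ → ℕ) (M : ℕ) (s g : ℕ → ℕ) (w : List Bool) :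
    orb u M s g w = _root_.MWF.orb M u s g w := by
  induction w with
  | nil => rfl
  | cons b w ih =>
    change alp u M (if b then Hm u M s else s) (orb u M s g w) =
      _root_.MWF.al M u (if b then _root_.MWF.HH M u s else s) (_root_.MWF.orb M u s g w)
    rw [ih, hm_eq]
    rfl

theorem continuous_orb (u : ℕ → ℕ) (M : ℕ) (w : List Bool) :
    Continuous fun p : (ℕ → ℕ) × (ℕ → ℕ) => orb u M p.1 p.2 w := by
  induction w with
  | nil => exact continuous_snd
  | cons b w ih =>
    cases b with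
    | false => exact (Helper45.MWF.continuous_alp u M).comp (continuous_fst.prodMk ih)
    | true =>
      exact (Helper45.MWF.continuous_alp u M).comp
        (((Helper45.MWF.continuous_hm u M).comp continuous_fst).prodMk ih)

theorem st_ORB2 : ST_ORB2 := by
  intro u M W _
  -- one target
  have key : ∀ (l : List ℕ) (k : ℕ), xf l ∈ Cy u (min M k) →
      ∀ᶠ p in residual ((ℕ → ℕ) × (ℕ → ℕ)), p.2 ∈ Cy u M →
        ∃ w : List Bool, orb u M p.1 p.2 w ∈ Cy (xf l) k := by
    intro l k hl
    have ho : IsOpen {p : (ℕ → ℕ) × (ℕ → ℕ) | p.2 ∈ Cy u M →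
        ∃ w : List Bool, orb u M p.1 p.2 w ∈ Cy (xf l) k} := by
      have e : {p : (ℕ → ℕ) × (ℕ → ℕ) | p.2 ∈ Cy u M →
          ∃ w : List Bool, orb u M p.1 p.2 w ∈ Cy (xf l) k} =
          (Prod.snd ⁻¹' (Cy u M)ᶜ) ∪
            ⋃ w : List Bool, (fun p : (ℕ → ℕ) × (ℕ → ℕ) => orb u M p.1 p.2 w) ⁻¹' Cy (xf l) k := by
        ext p
        simp only [mem_ofPred_eq, mem_union, mem_preimage, mem_compl_iff, mem_iUnion]
        tauto
      rw [e]
      exact ((isClosed_Cy u M).isOpen_compl.preimage continuous_snd).union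
        (isOpen_iUnion fun w => (isOpen_Cy _ _).preimage (continuous_orb u M w))
    refine residual_of_dense_open ho ?_
    refine dense_of_box fun s0 g0 N1 => ?_
    by_cases hg : g0 ∈ Cy u M
    · obtain ⟨s1, w, h1, h2⟩ := _root_.MWF.orb_dense s0 hg N1 (xf l)
      refine ⟨(s1, g0), ?_, h1, mem_Cy_self g0 N1⟩
      intro _
      refine ⟨w, fun i hi => ?_⟩
      change orb u M s1 g0 w i = xf l i
      rw [orb_eq]
      rcases lt_or_ge i M with h | h
      · rw [_root_.MWF.orb_lt hg w i h, hl i (lt_min h hi)]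
      · exact h2 i h
    · exact ⟨(s0, g0), fun hc => absurd hc hg, mem_Cy_self s0 N1, mem_Cy_self g0 N1⟩
  have h1 : ∀ᶠ p in residual ((ℕ → ℕ) × (ℕ → ℕ)), ∀ (l : List ℕ) (k : ℕ),
      xf l ∈ Cy u (min M k) → p.2 ∈ Cy u M →
        ∃ w : List Bool, orb u M p.1 p.2 w ∈ Cy (xf l) k := by
    refine eventually_countable_forall.2 fun l => eventually_countable_forall.2 fun k => ?_
    by_cases hl : xf l ∈ Cy u (min M k)
    · filter_upwards [key l k hl] with p hp _ h2
      exact hp h2
    · exact Filter.Eventually.of_forall fun p h2 => absurd h2 hl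
  filter_upwards [h1] with p hp _ h2 v k hv
  have h3 : v ∈ Cy (xf (ini v k)) k := fun i hi => (xf_ini_agree v k i hi).symm
  obtain ⟨w, hw⟩ := hp (ini v k) k (fun i hi => by
    have h4 : i < k := lt_of_lt_of_le hi (min_le_right _ _)
    have h5 : i < M := lt_of_lt_of_le hi (min_le_left _ _)
    rw [xf_ini_agree v k i h4, hv i h5]) h2
  exact ⟨w, fun i hi => (hw i hi).trans (h3 i hi).symm⟩

end Pool.Agent.Helper33.MWF
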